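import Mathlib
import Pool.Agent.L7h27.SJ.All

/-!
# Simultaneous minimal Sylow intersections in solvable groups

Let `G` be a finite group, `p_1, …, p_n` distinct primes, `P_i` Sylow `p_i`-subgroups of `G`.

* Let `G` be solvable, and let for every `i` either `P_i` be abelian, or `p_i` odd and not a Mersenne prime `2^b - 1` with `2^b` dividing
  `|G|`.  Then there is ONE `x ∈ G` with `P_i ∩ P_i^x = O_{p_i}(G)` for all `i`.
* Let `R` be a solvable normal subgroup of `G`, and let for every `i` either `P_i` be abelian, or `p_i` odd and not a Mersenne prime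
  `2^b - 1` with `2^b` dividing `|R|`.  If the image of `y ∈ G` in `G/R` has this property for the images of the `P_i`, then some `y r`,
  `r ∈ R`, has it for `G`.
-/

set_option autoImplicit false

namespace Pool.Agent.Results.MP_3587c3_al.SolvableGroups

/-- `P^x = x⁻¹ P x` -/
def cj {G : Type} [Group G] (P : Subgroup G) (x : G) : Subgroup G := P.map (MulAut.conj x⁻¹).toMonoidHom

/-- `O_p(G)`: the intersection of all Sylow `p`-subgroups of `G` -/
def core (p : ℕ) (G : Type) [Group G] : Subgroup G := ⨅ Q : Sylow p G, (Q : Subgroup G)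

lemma mem_cj {G : Type} [Group G] (P : Subgroup G) (x g : G) : g ∈ cj P x ↔ x * g * x⁻¹ ∈ P := by
  unfold cj
  rw [Pool.Agent.L7h65.SI.mc, inv_inv]

lemma mem_core (p : ℕ) (G : Type) [Group G] (g : G) : g ∈ core p G ↔ ∀ Q : Sylow p G, g ∈ (Q : Subgroup G) := by
  unfold core
  rw [Subgroup.mem_iInf]

lemma core_normal (p : ℕ) (G : Type) [Group G] : (core p G).Normal := by
  refine ⟨fun g hg x => ?_⟩
  rw [mem_core] at *
  intro Q
  have h1 := hg (x⁻¹ • Q)
  rw [Sylow.coe_subgroup_smul, Subgroup.mem_pointwise_smul_iff_inv_smul_mem, ← map_inv, MulAut.smul_def,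
    MulAut.conj_apply, inv_inv] at h1
  exact h1

/-- a normal intersection `P ∩ P^x` is the core -/
lemma eq_core {p : ℕ} (hp : p.Prime) {G : Type} [Group G] [Finite G] (P : Sylow p G) (x : G)
    (h : ((P : Subgroup G) ⊓ cj (P : Subgroup G) x).Normal) : (P : Subgroup G) ⊓ cj (P : Subgroup G) x = core p G := by
  have := Fact.mk hp
  apply le_antisymm
  · intro g hg
    rw [mem_core]
    intro Q
    obtain ⟨y, rfl⟩ := MulAction.exists_smul_eq G P Q
    rw [Sylow.coe_subgroup_smul, Subgroup.mem_pointwise_smul_iff_inv_smul_mem, ← map_inv, MulAut.smul_def,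
      MulAut.conj_apply, inv_inv]
    have h1 := h.conj_mem g hg y⁻¹
    rw [inv_inv] at h1
    exact h1.1
  · intro g hg
    have h1 := (core_normal p G).conj_mem g hg x
    rw [mem_core] at hg h1
    exact ⟨hg P, (mem_cj _ _ _).2 (h1 P)⟩

lemma minimal_of {p : ℕ} {G : Type} [Group G] (P : Sylow p G) (x : G)
    (h : (P : Subgroup G) ⊓ cj (P : Subgroup G) x = core p G) (z : G) :
    ¬ (P : Subgroup G) ⊓ cj (P : Subgroup G) z < (P : Subgroup G) ⊓ cj (P : Subgroup G) x := by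
  intro hlt
  rw [h] at hlt
  refine not_le_of_gt hlt ?_
  intro g hg
  have h1 := (core_normal p G).conj_mem g hg z
  rw [mem_core] at hg h1
  exact ⟨hg P, (mem_cj _ _ _).2 (h1 P)⟩

/-- **Simultaneous Sylow intersections in solvable groups.** -/
theorem result (G : Type) [Group G] [Finite G] (n : ℕ) (p : Fin n → ℕ) (hp : ∀ i, (p i).Prime)
    (hinj : Function.Injective p) (P : ∀ i, Sylow (p i) G) :
    (Group.IsSolvable G →
      (∀ i, (∀ g ∈ (P i : Subgroup G), ∀ h ∈ (P i : Subgroup G), g * h = h * g) ∨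
        (p i ≠ 2 ∧ ∀ b, 2 ^ b ∣ Nat.card G → p i ≠ 2 ^ b - 1)) →
      ∃ x : G, ∀ i, (P i : Subgroup G) ⊓ cj (P i : Subgroup G) x = core (p i) G ∧
        ∀ z : G, ¬ (P i : Subgroup G) ⊓ cj (P i : Subgroup G) z < (P i : Subgroup G) ⊓ cj (P i : Subgroup G) x) ∧
    (∀ (R : Subgroup G) [R.Normal], Group.IsSolvable R →
      (∀ i, (∀ g ∈ (P i : Subgroup G), ∀ h ∈ (P i : Subgroup G), g * h = h * g) ∨
        (p i ≠ 2 ∧ ∀ b, 2 ^ b ∣ Nat.card R → p i ≠ 2 ^ b - 1)) → ∀ y : G,
      (∀ i, (P i : Subgroup G).map (QuotientGroup.mk' R) ⊓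
        cj ((P i : Subgroup G).map (QuotientGroup.mk' R)) (QuotientGroup.mk' R y) = core (p i) (G ⧸ R)) →
      ∃ r ∈ R, ∀ i, (P i : Subgroup G) ⊓ cj (P i : Subgroup G) (y * r) = core (p i) G ∧
        ∀ z : G, ¬ (P i : Subgroup G) ⊓ cj (P i : Subgroup G) z < (P i : Subgroup G) ⊓ cj (P i : Subgroup G) (y * r)) := by
  have main : ∀ (R : Subgroup G) [R.Normal], Group.IsSolvable R →
      (∀ i, (∀ g ∈ (P i : Subgroup G), ∀ h ∈ (P i : Subgroup G), g * h = h * g) ∨
        (p i ≠ 2 ∧ ∀ b, 2 ^ b ∣ Nat.card R → p i ≠ 2 ^ b - 1)) → ∀ y : G,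
      (∀ i, (((P i : Subgroup G) ⊔ R) ⊓ ((P i : Subgroup G) ⊔ R).map (MulAut.conj y⁻¹).toMonoidHom).Normal) →
      ∃ r ∈ R, ∀ i, (P i : Subgroup G) ⊓ cj (P i : Subgroup G) (y * r) = core (p i) G ∧
        ∀ z : G, ¬ (P i : Subgroup G) ⊓ cj (P i : Subgroup G) z < (P i : Subgroup G) ⊓ cj (P i : Subgroup G) (y * r) := by
    intro R _ hR hM y hy
    let T : Fin n → Prop := fun i => ∀ g ∈ (P i : Subgroup G), ∀ h ∈ (P i : Subgroup G), g * h = h * g
    have h2 : ∀ i, ¬ T i → p i ≠ 2 := fun i hi => ((hM i).resolve_left hi).1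
    have hM' : ∀ i, ¬ T i → ∀ a b, 1 ≤ a → 2 ^ b ∣ Nat.card R → 2 ^ b ≠ p i ^ a + 1 := by
      intro i hi a b ha hb h
      have h1 := Pool.Agent.L7h27.SI.FinAux.mers (hp i) (h2 i hi) ha h
      exact ((hM i).resolve_left hi).2 b hb (by omega)
    obtain ⟨v, hv, hx⟩ := Pool.Agent.L7h27.SJ.all _ G rfl R hR (Fin n) T p hp hinj h2 hM' P (fun i hi => hi) y⁻¹ hy
    refine ⟨v⁻¹, inv_mem hv, fun i => ?_⟩
    have h1 : cj (P i : Subgroup G) (y * v⁻¹) = (P i : Subgroup G).map (MulAut.conj (v * y⁻¹)).toMonoidHom := by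
      unfold cj
      rw [mul_inv_rev, inv_inv]
    have h2 := hx i
    rw [← h1] at h2
    have h3 := eq_core (hp i) (P i) (y * v⁻¹) h2
    exact ⟨h3, fun z => minimal_of (P i) _ h3 z⟩
  constructor
  · intro hG hM
    obtain ⟨r, -, hr⟩ := main ⊤ (Group.isSolvable_of_surjective (G := G)
      (f := (Subgroup.topEquiv (G := G)).symm.toMonoidHom) (Subgroup.topEquiv (G := G)).symm.surjective)
      (fun i => (hM i).imp id (fun h => ⟨h.1, fun b hb => h.2 b (by rwa [Subgroup.card_top] at hb)⟩)) 1 (fun i => by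
        have h1 : (((P i : Subgroup G) ⊔ ⊤) ⊓ ((P i : Subgroup G) ⊔ ⊤).map (MulAut.conj (1 : G)⁻¹).toMonoidHom) = ⊤ := by
          rw [sup_top_eq, Subgroup.eq_top_iff']
          intro g
          exact ⟨trivial, (Pool.Agent.L7h65.SI.mc _ _ _).2 trivial⟩
        rw [h1]
        infer_instance)
    exact ⟨1 * r, hr⟩
  · intro R _ hR hM y hy
    refine main R hR hM y (fun i => ?_)
    have h1 : (((P i : Subgroup G) ⊔ R) ⊓ ((P i : Subgroup G) ⊔ R).map (MulAut.conj y⁻¹).toMonoidHom) =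
        (core (p i) (G ⧸ R)).comap (QuotientGroup.mk' R) := by
      rw [← hy i]
      ext g
      have h2 : ∀ g : G, QuotientGroup.mk' R g ∈ (P i : Subgroup G).map (QuotientGroup.mk' R) ↔
          g ∈ (P i : Subgroup G) ⊔ R := by
        intro g
        rw [← Subgroup.mem_comap, Subgroup.comap_map_eq, QuotientGroup.ker_mk']
      rw [Subgroup.mem_comap, Subgroup.mem_inf, Subgroup.mem_inf, h2, mem_cj, Pool.Agent.L7h65.SI.mc, inv_inv]
      have h3 : QuotientGroup.mk' R y * QuotientGroup.mk' R g * (QuotientGroup.mk' R y)⁻¹ =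
          QuotientGroup.mk' R (y * g * y⁻¹) := by
        rw [map_mul, map_mul, map_inv]
      rw [h3, h2]
    rw [h1]
    exact Subgroup.Normal.comap (core_normal (p i) (G ⧸ R)) _

end Pool.Agent.Results.MP_3587c3_al.SolvableGroups
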